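import Mathlib
import Pool.Agent.H42.LusG

open Pool.Agent.H84.QcfDefs Pool.Agent.H42.LusG

/-- If there is an infinitely branching free Suslin tree and `p > ω₁`, then some Lusin space is a
`γ`-space. -/
theorem Pool.Agent.Results.MP_1599f7_gt.Cons.result {T : Type} [PartialOrder T]
    (h : FreeSuslin T) (hp : PBig) :
    ∃ (X : Type) (_ : TopologicalSpace X), Lusin X ∧ GammaSpace X :=
  main h hp
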